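import Pool.Agent.R3B.StmtsL

set_option autoImplicit false

/-!
# Squad R3B (MP_be01ff_an), row VBD: the velocity vanishes at the center, linearly
-/

namespace Pool.Agent.R3B.H12

open Set Filter Topology MeasureTheory
open Pool.Agent.Helper39_Wave (phi phi_neg)
open Pool.Agent.Helper72_Shell (CharSol En psi fold bw)
open Pool.Agent.R3B

theorem vbdCore {κ α ℓ b0 : ℝ} {b : ℝ → ℝ} {P : ℝ → ℝ → ℝ} {L : ℝ}
    (h : CharSol κ α ℓ b0 b P) (hL : 0 ≤ L)
    (hlip : ∀ t h y, 0 ≤ t → 0 ≤ h → |P (t + h) (y + h) - P t y| ≤ L * h)
    (t r : ℝ) (ht : 0 ≤ t) (hr : 0 ≤ r) : |P t (t + r) - P t (t - r)| ≤ 2 * L * r := by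
  set n : ℝ × ℝ → ℝ := fun z => b (z.2 - z.1) * phi α (P z.1 z.2 - P z.1 (2 * z.1 - z.2)) with hn
  have hnc : Continuous n := h.contf
  have hodd : ∀ s y, n (s, 2 * s - y) = -n (s, y) := by
    intro s y
    simp only [hn]
    have e1 : 2 * s - y - s = -(y - s) := by ring
    have e2 : 2 * s - (2 * s - y) = y := by ring
    rw [e1, h.beven, e2, ← neg_sub (P s y), phi_neg, mul_neg]
  have hκ := h.kpos
  -- the main estimate
  have key : ∀ ε : ℝ, 0 < ε → |P t (t + r) - P t (t - r)| ≤ 2 * L * r + r * κ * ε := by
    intro ε hε
    set K : Set (ℝ × ℝ) := Icc t (t + 1) ×ˢ Icc (t - r - 3) (t + r + 3) with hK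
    have hKc : IsCompact K := isCompact_Icc.prod isCompact_Icc
    have huc : UniformContinuousOn n K := hKc.uniformContinuousOn_of_continuous hnc.continuousOn
    obtain ⟨δ, hδ, hδn⟩ := Metric.uniformContinuousOn_iff.mp huc ε hε
    set Q : ℝ → ℝ := fun u => P t (t + u) with hQ
    have hQc : Continuous Q := h.contP continuous_const (by fun_prop)
    set G : ℝ → ℝ := fun x => (∫ v in (0 : ℝ)..(x + r), Q v) - ∫ v in (0 : ℝ)..(x + -r), Q v
      with hG
    have hGd : HasDerivAt G (Q (0 + r) - Q (0 + -r)) 0 := by
      have h1 := (hQc.integral_hasStrictDerivAt 0 (0 + r)).hasDerivAt.comp_add_const 0 r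
      have h2 := (hQc.integral_hasStrictDerivAt 0 (0 + -r)).hasDerivAt.comp_add_const 0 (-r)
      exact h1.sub h2
    have hGe : ∀ x, G x = ∫ u in (-r)..r, P t (t + x + u) := by
      intro x
      have e : ∀ u, P t (t + x + u) = Q (x + u) := fun u => by
        simp only [hQ]
        rw [add_assoc]
      simp_rw [e]
      rw [intervalIntegral.integral_comp_add_left (fun v => Q v) x, hG]
      exact intervalIntegral.integral_interval_sub_left (hQc.intervalIntegrable _ _)
        (hQc.intervalIntegrable _ _)
    -- the estimate for small `x`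
    have hsmall : ∀ x : ℝ, 0 < x → x < 1 / 2 → 2 * x < δ →
        |G x - G 0| ≤ (2 * L * r + r * κ * ε) * x := by
      intro x hx hx1 hxδ
      set w : ℝ → ℝ := fun u => P (t + x) (t + x + u) - P t (t + x + u) with hw
      have hwc : Continuous w :=
        (h.contP continuous_const (by fun_prop)).sub (h.contP continuous_const (by fun_prop))
      have hwsym : ∀ u ∈ Icc (-r) r, |w u + w (-u)| ≤ κ * ε * x := by
        intro u hu
        have o1 := h.ode t (t + x) (t + x + u) ht (by linarith)
        have o2 := h.ode t (t + x) (t + x + -u) ht (by linarith)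
        have c1 : Continuous fun s : ℝ => n (s, t + x + u) := hnc.comp (by fun_prop)
        have c2 : Continuous fun s : ℝ => n (s, t + x + -u) := hnc.comp (by fun_prop)
        have e1 : w u + w (-u) = -κ * ∫ s in t..(t + x), (n (s, t + x + u) + n (s, t + x + -u)) := by
          rw [intervalIntegral.integral_add (c1.intervalIntegrable _ _)
            (c2.intervalIntegrable _ _), mul_add, ← o1, ← o2]
        rw [e1, abs_mul, abs_neg, abs_of_pos hκ, mul_assoc]
        refine mul_le_mul_of_nonneg_left ?_ hκ.le
        have hb := intervalIntegral.norm_integral_le_of_norm_le_const (a := t) (b := t + x)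
          (C := ε) (f := fun s => n (s, t + x + u) + n (s, t + x + -u)) (by
            intro s hs
            rw [uIoc_of_le (by linarith)] at hs
            have e2 : t + x + -u = 2 * s - (2 * s - t - x + u) := by ring
            rw [e2, hodd, ← sub_eq_add_neg]
            have m1 : ((s, t + x + u) : ℝ × ℝ) ∈ K :=
              ⟨⟨hs.1.le, by linarith [hs.2]⟩, ⟨by linarith [hu.1], by linarith [hu.2]⟩⟩
            have m2 : ((s, 2 * s - t - x + u) : ℝ × ℝ) ∈ K :=
              ⟨⟨hs.1.le, by linarith [hs.2]⟩, ⟨by linarith [hu.1, hs.1], by linarith [hu.2, hs.2]⟩⟩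
            have hd := hδn _ m1 _ m2 (by
              rw [Prod.dist_eq, dist_self, Real.dist_eq]
              have e3 : t + x + u - (2 * s - t - x + u) = 2 * (t + x - s) := by ring
              rw [e3, abs_of_nonneg (by linarith [hs.2]), max_eq_right (by linarith [hs.2])]
              linarith [hs.1])
            rw [Real.dist_eq] at hd
            exact hd.le)
        rw [add_sub_cancel_left, abs_of_pos hx] at hb
        exact hb
      have hwint : |∫ u in (-r)..r, w u| ≤ r * κ * ε * x := by
        have e1 : ∫ u in (-r)..r, w (-u) = ∫ u in (-r)..r, w u := by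
          rw [intervalIntegral.integral_comp_neg, neg_neg]
        have e2 : 2 * ∫ u in (-r)..r, w u = ∫ u in (-r)..r, (w u + w (-u)) := by
          have hwc' : Continuous fun u => w (-u) := hwc.comp continuous_neg
          rw [intervalIntegral.integral_add (hwc.intervalIntegrable _ _)
            (hwc'.intervalIntegrable _ _), e1]
          ring
        have hb := intervalIntegral.norm_integral_le_of_norm_le_const (a := -r) (b := r)
          (C := κ * ε * x) (f := fun u => w u + w (-u)) (by
            intro u hu
            rw [uIoc_of_le (by linarith)] at hu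
            exact hwsym u ⟨hu.1.le, hu.2⟩)
        rw [← e2, sub_neg_eq_add, abs_of_nonneg (by linarith : (0 : ℝ) ≤ r + r), Real.norm_eq_abs,
          abs_mul, abs_two] at hb
        linarith
      have hd : |∫ u in (-r)..r, (P (t + x) (t + x + u) - P t (t + u))| ≤ 2 * L * r * x := by
        have hb := intervalIntegral.norm_integral_le_of_norm_le_const (a := -r) (b := r)
          (C := L * x) (f := fun u => P (t + x) (t + x + u) - P t (t + u)) (by
            intro u _
            have := hlip t x (t + u) ht hx.le
            have e : t + u + x = t + x + u := by ring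
            rw [e] at this
            exact this)
        rw [sub_neg_eq_add, abs_of_nonneg (by linarith : (0 : ℝ) ≤ r + r), Real.norm_eq_abs] at hb
        linarith
      have hsplit : G x - G 0 = (∫ u in (-r)..r, (P (t + x) (t + x + u) - P t (t + u))) -
          ∫ u in (-r)..r, w u := by
        have c1 : Continuous fun u : ℝ => P t (t + x + u) := h.contP continuous_const (by fun_prop)
        have c2 : Continuous fun u : ℝ => P t (t + 0 + u) := h.contP continuous_const (by fun_prop)
        have c3 : Continuous fun u : ℝ => P (t + x) (t + x + u) - P t (t + u) :=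
          (h.contP continuous_const (by fun_prop)).sub (h.contP continuous_const (by fun_prop))
        rw [hGe, hGe, ← intervalIntegral.integral_sub (c1.intervalIntegrable _ _)
          (c2.intervalIntegrable _ _), ← intervalIntegral.integral_sub (c3.intervalIntegrable _ _)
          (hwc.intervalIntegrable _ _)]
        refine intervalIntegral.integral_congr fun u _ => ?_
        simp only [hw, add_zero]
        ring
      rw [hsplit]
      refine (abs_sub _ _).trans ?_
      linarith
    -- the limit
    have hsl : Tendsto (slope G 0) (𝓝[>] 0) (𝓝 (Q (0 + r) - Q (0 + -r))) :=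
      (hasDerivWithinAt_iff_tendsto_slope' (by simp)).mp (hGd.hasDerivWithinAt (s := Ioi 0))
    have hfin := le_of_tendsto hsl.abs (b := 2 * L * r + r * κ * ε) (by
      have hpos : 0 < min (1 / 2) (δ / 2) := lt_min (by norm_num) (by linarith)
      filter_upwards [Ioo_mem_nhdsGT hpos] with x hx
      have hx1 : x < 1 / 2 := lt_of_lt_of_le hx.2 (min_le_left _ _)
      have hx2 : x < δ / 2 := lt_of_lt_of_le hx.2 (min_le_right _ _)
      have := hsmall x hx.1 hx1 (by linarith)
      rw [slope_def_field, sub_zero, abs_div, abs_of_pos hx.1, div_le_iff₀ hx.1]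
      exact this)
    have e1 : Q (0 + r) - Q (0 + -r) = P t (t + r) - P t (t - r) := by
      simp only [hQ, zero_add]
      rfl
    rw [e1] at hfin
    exact hfin
  refine le_of_forall_pos_le_add fun ε hε => ?_
  have hc : 0 < r * κ + 1 := by positivity
  have := key (ε / (r * κ + 1)) (div_pos hε hc)
  have h2 : r * κ * (ε / (r * κ + 1)) ≤ ε := by
    rw [← mul_div_assoc, div_le_iff₀ hc]
    nlinarith
  linarith

theorem vbd : VbdStmt := by
  intro κ α ℓ b0 b P L h hL hlip t y ht
  have hper : ∀ (k : ℤ) (z : ℝ), P t (z + k * (2 * ℓ)) = P t z := by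
    intro k z
    exact (h.periodic t).int_mul k z
  obtain ⟨k, hk⟩ := Pool.Agent.Helper72_Shell.fold_cases h.lpos (y - t)
  have hf : 0 ≤ fold ℓ (y - t) := Pool.Agent.Helper72_Shell.fold_nonneg h.lpos _
  set f := fold ℓ (y - t) with hfd
  have hcore := vbdCore h hL hlip t f ht hf
  rcases hk with ⟨hk, -⟩ | ⟨hk, -⟩
  · have e1 : y = (t + f) + k * (2 * ℓ) := by linarith
    have e2 : 2 * t - y = (t - f) + ((-k : ℤ) : ℝ) * (2 * ℓ) := by
      push_cast
      linarith
    have h1 : P t y = P t (t + f) := by
      rw [e1]
      exact hper k _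
    have h2 : P t (2 * t - y) = P t (t - f) := by
      rw [e2]
      exact hper (-k) _
    rw [h1, h2]
    exact hcore
  · have e1 : y = (t - f) + k * (2 * ℓ) := by linarith
    have e2 : 2 * t - y = (t + f) + ((-k : ℤ) : ℝ) * (2 * ℓ) := by
      push_cast
      linarith
    have h1 : P t y = P t (t - f) := by
      rw [e1]
      exact hper k _
    have h2 : P t (2 * t - y) = P t (t + f) := by
      rw [e2]
      exact hper (-k) _
    rw [h1, h2, abs_sub_comm]
    exact hcore

end Pool.Agent.R3B.H12
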